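import Pool.Agent.H18.SAP.Stmts

/-!
# Project SAP, module POP: popular pattern of primes
-/

set_option autoImplicit false

namespace SAP
open Finset

theorem pop (h1 : S_SVU) (h2 : S_TPL) : S_POP := by
  obtain ⟨K, hK, h1⟩ := h1
  refine ⟨K, hK, fun m => ?_⟩
  obtain ⟨n, w0, h1⟩ := h1 m
  refine ⟨n, fun J _ c hc1 hc2 hc3 ε hε => ?_⟩
  choose W b hWb using fun j => h2 n w0 (c j) (hc1 j) (hc2 j) (hc3 j)
  have h1' := h1 J c W b hWb (ε / 2) (by positivity)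
  -- large `x`
  obtain ⟨N0, hN0⟩ : ∃ N0 : ℝ, ∀ x : ℝ, N0 ≤ x → (2 : ℝ) ^ n < x ^ (ε / 2) := by
    have := (tendsto_rpow_atTop (y := ε / 2) (by positivity)).eventually_gt_atTop ((2 : ℝ) ^ n)
    obtain ⟨N0, hN0⟩ := Filter.eventually_atTop.1 this
    exact ⟨N0, hN0⟩
  have key : ∀ N : ℕ, ∃ I : J → Finset (Fin n), (∀ j, m ≤ (I j).card) ∧ ∃ x : ℝ, (N : ℝ) ≤ x ∧
      ∀ j : J, x ^ (1 - ε) ≤ (((Icc 1 ⌊8 * x⌋₊).filter (fun t : ℕ => x / 8 ≤ (t : ℝ) ∧
      (∀ p ∈ t.primeFactors, x ^ (1 / (K : ℝ)) ≤ (p : ℝ)) ∧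
      ∀ i ∈ I j, (c j i * t + 1).Prime)).card : ℝ) := by
    intro N
    obtain ⟨x, hx, hx2⟩ := h1' (max (max N0 1) N)
    have hxN : (N : ℝ) ≤ x := le_trans (le_max_right _ _) hx
    have hx1 : (1 : ℝ) ≤ x := le_trans (le_trans (le_max_right _ _) (le_max_left _ _)) hx
    have hx0 : N0 ≤ x := le_trans (le_trans (le_max_left _ _) (le_max_left _ _)) hx
    have hxpos : 0 < x := by linarith
    have hj : ∀ j : J, ∃ I : Finset (Fin n), m ≤ I.card ∧
        x ^ (1 - ε) ≤ (((Icc 1 ⌊8 * x⌋₊).filter (fun t : ℕ => x / 8 ≤ (t : ℝ) ∧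
        (∀ p ∈ t.primeFactors, x ^ (1 / (K : ℝ)) ≤ (p : ℝ)) ∧
        ∀ i ∈ I, (c j i * t + 1).Prime)).card : ℝ) := by
      intro j
      by_contra hcon
      push Not at hcon
      have hsub : ((Icc 1 ⌊8 * x⌋₊).filter (fun t : ℕ => x / 8 ≤ (t : ℝ) ∧ t ≡ b j [MOD W j] ∧
          (∀ p ∈ t.primeFactors, x ^ (1 / (K : ℝ)) ≤ (p : ℝ)) ∧
          m ≤ (univ.filter (fun i : Fin n => (c j i * t + 1).Prime)).card)) ⊆
          ((univ : Finset (Finset (Fin n))).filter (fun I => m ≤ I.card)).biUnion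
          (fun I => (Icc 1 ⌊8 * x⌋₊).filter (fun t : ℕ => x / 8 ≤ (t : ℝ) ∧
            (∀ p ∈ t.primeFactors, x ^ (1 / (K : ℝ)) ≤ (p : ℝ)) ∧
            ∀ i ∈ I, (c j i * t + 1).Prime)) := by
        intro t ht
        rw [mem_filter] at ht
        rw [mem_biUnion]
        refine ⟨univ.filter (fun i : Fin n => (c j i * t + 1).Prime), ?_, ?_⟩
        · rw [mem_filter]
          exact ⟨mem_univ _, ht.2.2.2.2⟩
        · rw [mem_filter]
          refine ⟨ht.1, ht.2.1, ht.2.2.2.1, fun i hi => ?_⟩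
          rw [mem_filter] at hi
          exact hi.2
      have hcard := (card_le_card hsub).trans card_biUnion_le
      have h3 := hx2 j
      have h4 : (∑ I ∈ (univ : Finset (Finset (Fin n))).filter (fun I => m ≤ I.card),
          (((Icc 1 ⌊8 * x⌋₊).filter (fun t : ℕ => x / 8 ≤ (t : ℝ) ∧
            (∀ p ∈ t.primeFactors, x ^ (1 / (K : ℝ)) ≤ (p : ℝ)) ∧
            ∀ i ∈ I, (c j i * t + 1).Prime)).card : ℝ)) ≤
          ∑ _I ∈ (univ : Finset (Finset (Fin n))).filter (fun I => m ≤ I.card), x ^ (1 - ε) := by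
        refine sum_le_sum fun I hI => (hcon I ?_).le
        rw [mem_filter] at hI
        exact hI.2
      rw [sum_const, nsmul_eq_mul] at h4
      have h5 : (((univ : Finset (Finset (Fin n))).filter (fun I => m ≤ I.card)).card : ℝ) ≤
          2 ^ n := by
        have : ((univ : Finset (Finset (Fin n))).filter (fun I => m ≤ I.card)).card ≤ 2 ^ n := by
          refine (card_le_univ _).trans ?_
          rw [Fintype.card_finset, Fintype.card_fin]
        exact_mod_cast this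
      have h6 : (0 : ℝ) < x ^ (1 - ε) := Real.rpow_pos_of_pos hxpos _
      have h7 : x ^ (1 - ε / 2) = x ^ (ε / 2) * x ^ (1 - ε) := by
        rw [← Real.rpow_add hxpos]
        congr 1
        ring
      have h8 : (2 : ℝ) ^ n * x ^ (1 - ε) < x ^ (ε / 2) * x ^ (1 - ε) :=
        mul_lt_mul_of_pos_right (hN0 x hx0) h6
      have h9 : (((Icc 1 ⌊8 * x⌋₊).filter (fun t : ℕ => x / 8 ≤ (t : ℝ) ∧ t ≡ b j [MOD W j] ∧
          (∀ p ∈ t.primeFactors, x ^ (1 / (K : ℝ)) ≤ (p : ℝ)) ∧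
          m ≤ (univ.filter (fun i : Fin n => (c j i * t + 1).Prime)).card)).card : ℝ) ≤
          ∑ I ∈ (univ : Finset (Finset (Fin n))).filter (fun I => m ≤ I.card),
          (((Icc 1 ⌊8 * x⌋₊).filter (fun t : ℕ => x / 8 ≤ (t : ℝ) ∧
            (∀ p ∈ t.primeFactors, x ^ (1 / (K : ℝ)) ≤ (p : ℝ)) ∧
            ∀ i ∈ I, (c j i * t + 1).Prime)).card : ℝ) := by
        exact_mod_cast hcard
      have h10 := mul_le_mul_of_nonneg_right h5 h6.le
      linarith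
    choose I hI1 hI2 using hj
    exact ⟨I, hI1, x, hxN, hI2⟩
  choose pat hpat x hx hx2 using key
  obtain ⟨I, hI⟩ := Finite.exists_infinite_fiber pat
  have hinf : (pat ⁻¹' {I}).Infinite := Set.infinite_coe_iff.1 hI
  refine ⟨I, ?_, fun N => ?_⟩
  · obtain ⟨N, hN⟩ := hinf.nonempty
    rw [Set.mem_preimage, Set.mem_singleton_iff] at hN
    rw [← hN]
    exact hpat N
  · obtain ⟨N', hN', hlt⟩ := hinf.exists_gt ⌈N⌉₊
    rw [Set.mem_preimage, Set.mem_singleton_iff] at hN'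
    refine ⟨x N', ?_, ?_⟩
    · have e1 : N ≤ (⌈N⌉₊ : ℝ) := Nat.le_ceil N
      have e2 : (⌈N⌉₊ : ℝ) ≤ (N' : ℝ) := by exact_mod_cast hlt.le
      exact le_trans (le_trans e1 e2) (hx N')
    · rw [← hN']
      exact hx2 N'

end SAP
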